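import Mathlib
import Pool.Agent.H.MP_2777d9_an.A
import Pool.Agent.H.MP_2777d9_an.B

open Set Filter Topology MvPolynomial
open Pool.Agent.H.MP_2777d9_an

namespace Pool.Agent.Results.MP_2777d9_an.Counter

/-- The polynomial map given by `F`. -/
noncomputable def ev (F : Fin 4 → MvPolynomial (Fin 4) ℂ) (z : E) : E := fun i => eval z (F i)

/-- Cone over the indeterminacy set at infinity of a polynomial map of degree two. -/
def Ind (F : Fin 4 → MvPolynomial (Fin 4) ℂ) : Set E :=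
  {z | ∀ i, eval z (homogeneousComponent 2 (F i)) = 0}

lemma hc {p q : MvPolynomial (Fin 4) ℂ} (hp : p.IsHomogeneous 1) (hq : q.IsHomogeneous 2) :
    (p + q).totalDegree ≤ 2 ∧ homogeneousComponent 2 (p + q) = q :=
  ⟨(totalDegree_add _ _).trans (max_le (hp.totalDegree_le.trans one_le_two) hq.totalDegree_le), by
    rw [map_add, homogeneousComponent_of_mem hp, homogeneousComponent_of_mem hq]; simp⟩

theorem result : ∃ F G : Fin 4 → MvPolynomial (Fin 4) ℂ,
    (∀ z, ev F (ev G z) = z) ∧ (∀ z, ev G (ev F z) = z) ∧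
    (∀ i, (F i).totalDegree ≤ 2) ∧ (∀ i, (G i).totalDegree ≤ 2) ∧
    Ind F = {z | z 0 = 0 ∧ z 2 = 0} ∧ Ind G = {z | z 1 = 0 ∧ z 3 = 0} ∧
    ∃ τ : (Fin 2 → ℂ) → E, Differentiable ℂ τ ∧ (∃ w, Function.Injective (fderiv ℂ τ w)) ∧
      (∀ w, Bornology.IsBounded (range fun n : ℕ => (ev F)^[n] (τ w))) ∧
      NoCur (closure (range τ)) ∧ NoCur {z | z 0 = 0 ∧ z 2 = 0 ∧ z 3 = 0} := by
  let A : ℂ → ℂ → Fin 4 → Fin 4 → MvPolynomial (Fin 4) ℂ := fun a b i j => C a * X i + C b * X j ^ 2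
  have h : ∀ a b i j, (A a b i j).totalDegree ≤ 2 ∧
      homogeneousComponent 2 (A a b i j) = C b * X j ^ 2 := fun a b i j =>
    hc ((isHomogeneous_X ℂ i).C_mul a) ((isHomogeneous_X_pow j 2).C_mul b)
  let ι : V →L[ℂ] E := LinearMap.toContinuousLinearMap
    { toFun := fun w => ![w 0, w 1, 0, 0]
      map_add' := fun x y => by simp
      map_smul' := fun x y => by simp }
  refine ⟨![A (1 / 4) (1 / 4) 1 0, A (1 / 4) 0 0 0, A (1 / 4) (1 / 4) 3 2, A (1 / 4) 0 2 2],
    ![A 4 0 1 1, A 4 (-16) 0 1, A 4 0 3 3, A 4 (-16) 2 3], fun z => ?_, fun z => ?_,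
    fun i => by fin_cases i <;> exact (h ..).1, fun i => by fin_cases i <;> exact (h ..).1,
    by ext z; simp [Ind, Fin.forall_fin_succ, h], by ext z; simp [Ind, Fin.forall_fin_succ, h],
    ι ∘ τ 1, ι.differentiable.comp (dτ zero_le_one), ⟨0, ?_⟩, fun w => ?_, nocur ?_, nocur ?_⟩
  · ext i; fin_cases i <;> simp [ev, A] <;> ring
  · ext i; fin_cases i <;> simp [ev, A] <;> ring
  · rw [(ι.hasFDerivAt.comp 0 d0).fderiv]
    intro x y e
    ext i
    fin_cases i
    exacts [congrFun e 0, congrFun e 1]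
  · refine Metric.isBounded_range_of_tendsto _ (((ι.continuous.tendsto 0).comp (lim0 w)).congr fun n =>
      Function.Semiconj.iterate_right (f := ι) (fun z => ?_) n _)
    ext i; fin_cases i <;> simp [ev, A, ι, hen] <;> ring
  · exact closure_minimal (t := {z : E | z 2 = 0 ∧ z 3 = 0 ∧ ‖z 0‖ ≤ ‖z 1‖ + 8})
        (range_subset_iff.2 fun w => ⟨rfl, rfl, esc w⟩) ((isClosed_eq (continuous_apply 2)
        continuous_const).inter ((isClosed_eq (continuous_apply 3) continuous_const).inter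
        (isClosed_le (continuous_apply 0).norm ((continuous_apply 1).norm.add continuous_const))))
  · exact fun z h => ⟨h.2.1, h.2.2, by rw [h.1, norm_zero]; positivity⟩

end Pool.Agent.Results.MP_2777d9_an.Counter
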